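import Pool.Agent.EWG.StmtsC

/-!
# Squad EWG, row LOE (MP_b66c3b_nt): the small moduli
-/

set_option autoImplicit false

namespace Pool.Agent.EWG.H5

open Finset

theorem loe (hB : Bt2Stmt) (hS : SllStmt) : LoeStmt := by
  obtain ⟨C1, hC1, hB⟩ := hB
  obtain ⟨C2, hC2, hS⟩ := hS
  refine ⟨C1 * (C2 + 1), by positivity, ?_⟩
  intro δ hδ hδ2 x hx
  have hx1 : (1 : ℝ) ≤ x := by exact_mod_cast hx
  have hx0 : (0 : ℝ) < x := by linarith
  have hlx : 0 ≤ Real.log x := Real.log_nonneg hx1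
  have hy1 : (1 : ℝ) ≤ (x : ℝ) ^ δ := Real.one_le_rpow hx1 hδ.le
  obtain ⟨y, hy⟩ : ∃ y, y = ⌊(x : ℝ) ^ δ⌋₊ := ⟨_, rfl⟩
  have hy2 : 1 ≤ y := by
    rw [hy]
    exact (Nat.one_le_floor_iff _).2 hy1
  have hyx : (y : ℝ) ≤ (x : ℝ) ^ δ := by
    rw [hy]
    exact Nat.floor_le (by positivity)
  have hly : Real.log y ≤ δ * Real.log x := by
    rw [← Real.log_rpow hx0]
    exact Real.log_le_log (by exact_mod_cast hy2) hyx
  have hnn : ∀ l ∈ pr (Icc 1 y), 0 ≤ Real.log l * (C1 * x / ((l : ℝ) - 1)) := by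
    intro l hl
    have hlp := (mem_pr.1 hl).2
    have h1 : (1 : ℝ) ≤ l := by exact_mod_cast hlp.one_lt.le
    exact mul_nonneg (Real.log_nonneg h1) (div_nonneg (by positivity) (by linarith))
  have hterm : ∀ l ∈ (pr (Icc 1 x)).filter (fun l : ℕ => (l : ℝ) ≤ (x : ℝ) ^ δ),
      l ∈ pr (Icc 1 y) ∧ Real.log l * Th x l ≤ Real.log l * (C1 * x / ((l : ℝ) - 1)) := by
    intro l hl
    rw [Finset.mem_filter] at hl
    obtain ⟨hl, hlx⟩ := hl
    have hlp := (mem_pr.1 hl).2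
    have h1 : (1 : ℝ) ≤ l := by exact_mod_cast hlp.one_lt.le
    refine ⟨mem_pr.2 ⟨?_, hlp⟩, ?_⟩
    · rw [Finset.mem_Icc]
      refine ⟨hlp.one_lt.le, ?_⟩
      rw [hy]
      exact Nat.le_floor hlx
    · refine mul_le_mul_of_nonneg_left ?_ (Real.log_nonneg h1)
      have h2 : (l : ℝ) ≤ (x : ℝ) ^ (1 / 2 : ℝ) :=
        hlx.trans (Real.rpow_le_rpow_of_exponent_le hx1 hδ2)
      have h3 : (l : ℝ) ^ 2 ≤ x := by
        rw [← Real.sqrt_eq_rpow] at h2
        have h2' := pow_le_pow_left₀ (by linarith : (0 : ℝ) ≤ (l : ℝ)) h2 2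
        rw [Real.sq_sqrt hx0.le] at h2'
        exact h2'
      have h4 : l ^ 2 ≤ x := by exact_mod_cast h3
      have h5 : l ^ 5 ≤ x ^ 3 := by
        calc l ^ 5 ≤ l ^ 6 := Nat.pow_le_pow_right hlp.pos (by norm_num)
          _ = (l ^ 2) ^ 3 := by rw [← pow_mul]
          _ ≤ x ^ 3 := Nat.pow_le_pow_left h4 3
      have h6 := hB x l hx hlp.pos h5
      rw [Nat.totient_prime hlp, Nat.cast_sub hlp.one_lt.le, Nat.cast_one] at h6
      exact h6
  have hS' := hS y hy2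
  calc ∑ l ∈ (pr (Icc 1 x)).filter (fun l : ℕ => (l : ℝ) ≤ (x : ℝ) ^ δ), Real.log l * Th x l
      ≤ ∑ l ∈ (pr (Icc 1 x)).filter (fun l : ℕ => (l : ℝ) ≤ (x : ℝ) ^ δ),
          Real.log l * (C1 * x / ((l : ℝ) - 1)) :=
        Finset.sum_le_sum (fun l hl => (hterm l hl).2)
    _ ≤ ∑ l ∈ pr (Icc 1 y), Real.log l * (C1 * x / ((l : ℝ) - 1)) :=
        Finset.sum_le_sum_of_subset_of_nonneg (fun l hl => (hterm l hl).1)
          (fun l hl _ => hnn l hl)
    _ = C1 * x * ∑ l ∈ pr (Icc 1 y), Real.log l / ((l : ℝ) - 1) := by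
        rw [Finset.mul_sum]
        refine Finset.sum_congr rfl (fun l _ => ?_)
        ring
    _ ≤ C1 * x * (Real.log y + C2) := mul_le_mul_of_nonneg_left hS' (by positivity)
    _ ≤ C1 * x * (δ * Real.log x + C2) := by
        refine mul_le_mul_of_nonneg_left ?_ (by positivity)
        linarith
    _ ≤ C1 * x * ((C2 + 1) * (δ * Real.log x + 1)) := by
        refine mul_le_mul_of_nonneg_left ?_ (by positivity)
        have : 0 ≤ δ * Real.log x := by positivity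
        nlinarith
    _ = C1 * (C2 + 1) * x * (δ * Real.log x + 1) := by ring

end Pool.Agent.EWG.H5
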