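import Pool.Agent.EWG.StmtsB

/-!
# Squad EWG, row LSV (MP_b66c3b_nt): the large sieve for the variances
-/

set_option autoImplicit false

namespace Pool.Agent.EWG.H5

open Finset Pool.Agent.PrimeFourier
open scoped BigOperators

theorem lsv (hA : AlsStmt) (hF : FarStmt) (hP : ParStmt) : LsvStmt := by
  intro R N P a hR hPl
  have hR' : (0 : ℝ) < R := by exact_mod_cast hR
  have h1 : ∀ l ∈ P, Vr (Ioc 0 N) a l ≤
      (1 / (R : ℝ)) * ∑ h ∈ Ioo 0 l, ‖∑ n ∈ Ioc 0 N, a n * e ((h : ℝ) / l * n)‖ ^ 2 := by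
    intro l hl
    obtain ⟨hlp, hRl, -⟩ := hPl l hl
    refine (hP (Ioc 0 N) a l hlp).trans ?_
    refine mul_le_mul_of_nonneg_right ?_ (Finset.sum_nonneg (fun h _ => by positivity))
    refine one_div_le_one_div_of_le hR' ?_
    exact_mod_cast hRl.le
  have h2 := hA ((_ : ℕ) × ℕ) (P.sigma (fun l => Ioo 0 l)) (fun i => (i.2 : ℝ) / i.1) a
    ((2 * R) ^ 2) N (by positivity) (by
      rintro ⟨l, h⟩ hi ⟨l', h'⟩ hj hne
      rw [Finset.mem_sigma, Finset.mem_Ioo] at hi hj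
      obtain ⟨hl, hh1, hh2⟩ := hi
      obtain ⟨hl', hh1', hh2'⟩ := hj
      dsimp only at hl hh1 hh2 hl' hh1' hh2' ⊢
      obtain ⟨a1, -, a3⟩ := hPl l hl
      obtain ⟨b1, -, b3⟩ := hPl l' hl'
      have h3 := hF (2 * R) l l' h h' a1 b1 a3 b3 hh1 hh2 hh1' hh2' (by
        by_contra hc
        push Not at hc
        apply hne
        rw [hc.1, hc.2])
      refine le_trans ?_ h3
      refine one_div_le_one_div_of_le (by positivity) ?_
      push_cast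
      nlinarith [sq_nonneg (2 * (R : ℝ))])
  rw [Finset.sum_sigma] at h2
  dsimp only at h2
  calc ∑ l ∈ P, Vr (Ioc 0 N) a l
      ≤ ∑ l ∈ P, (1 / (R : ℝ)) *
          ∑ h ∈ Ioo 0 l, ‖∑ n ∈ Ioc 0 N, a n * e ((h : ℝ) / l * n)‖ ^ 2 := Finset.sum_le_sum h1
    _ = (1 / (R : ℝ)) * ∑ l ∈ P,
          ∑ h ∈ Ioo 0 l, ‖∑ n ∈ Ioc 0 N, a n * e ((h : ℝ) / l * n)‖ ^ 2 := by
        rw [Finset.mul_sum]
    _ ≤ (1 / (R : ℝ)) * ((4 * (N : ℝ) + 4 * (((2 * R) ^ 2 : ℕ) : ℝ) *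
          (1 + Real.log (((2 * R) ^ 2 : ℕ) : ℝ))) * ∑ n ∈ Ioc 0 N, ‖a n‖ ^ 2) :=
        mul_le_mul_of_nonneg_left h2 (by positivity)
    _ = (1 / (R : ℝ)) * (4 * N + 16 * (R : ℝ) ^ 2 * (1 + 2 * Real.log (2 * R)))
        * ∑ n ∈ Ioc 0 N, ‖a n‖ ^ 2 := by
        push_cast
        rw [Real.log_pow]
        push_cast
        ring

end Pool.Agent.EWG.H5
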